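import Pool.Agent.helper70.BND.SpecH

/-! Row bh:KIL (MP_376aaf_an): combinations of loops. -/

set_option autoImplicit false

open scoped Topology
open Finset

namespace Pool.Agent.BND.EX

theorem KIL_cs (A : LD) (j v : ℕ) (hj : j < A.k) (hv : v < A.n) : (A.c j v).natAbs ≤ A.cs := by
  unfold LD.cs
  refine le_trans ?_ (Finset.single_le_sum (f := fun j => ∑ v ∈ range A.n, (A.c j v).natAbs) (fun _ _ => Nat.zero_le _)
    (Finset.mem_range.2 hj))
  exact Finset.single_le_sum (f := fun v => (A.c j v).natAbs) (fun _ _ => Nat.zero_le _) (Finset.mem_range.2 hv)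

theorem KIL_dW (n k : ℕ) (x y : ℕ → ℤ) (N : ℕ → ℕ → ℤ) (c : ℕ → ℕ → ℤ)
    (h : ∀ a b, a < n → b < n → x a * y b - x b * y a = ∑ j ∈ range k, (N a j * c j b - N b j * c j a)) (e : ℕ) :
    (∑ x' ∈ range n, ∑ j ∈ range k, N x' j • dW n (fun v => if v = x' then 1 else 0) (c j)) e = dW n x y e := by
  rw [Finset.sum_apply]
  simp only [Finset.sum_apply, Pi.smul_apply, smul_eq_mul]
  unfold dW
  by_cases hc : n ≤ e ∧ e < n + n * n ∧ (e - n) / n < (e - n) % n
  · simp only [if_pos hc]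
    have hn : 0 < n := by
      rcases Nat.eq_zero_or_pos n with h0 | h0
      · rw [h0] at hc
        omega
      · exact h0
    have ha : (e - n) / n < n := Nat.div_lt_of_lt_mul (by omega)
    have hb : (e - n) % n < n := Nat.mod_lt _ hn
    rw [h _ _ ha hb]
    set a := (e - n) / n
    set b := (e - n) % n
    rw [Finset.sum_comm]
    refine Finset.sum_congr rfl fun j _ => ?_
    have h1 : ∀ x' ∈ range n, N x' j * ((if a = x' then (1 : ℤ) else 0) * c j b - (if b = x' then (1 : ℤ) else 0) * c j a) =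
        (if a = x' then N x' j * c j b else 0) - (if b = x' then N x' j * c j a else 0) := by
      intro x' _
      split_ifs <;> ring
    rw [Finset.sum_congr rfl h1, Finset.sum_sub_distrib, Finset.sum_ite_eq, Finset.sum_ite_eq,
      if_pos (Finset.mem_range.2 ha), if_pos (Finset.mem_range.2 hb)]
  · simp only [if_neg hc]
    simp

theorem KIL (hFLP : FLP_stmt) (hGDX : GDX_stmt) (hPTR : PTR_stmt) (hPSY : PSY_stmt) (hPRF : PRF_stmt) : KIL_stmt := by
  intro A J κ₀ κ₁ Cc Bb X x y N hG hX hXn hB hC hfc hcnt hN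
  have hNr : Nr A.n κ₀ κ₁ Cc (fun v => (fc A.l J X v : ℤ)) := by
    refine ⟨0, ⟨le_refl _, zero_le_one⟩, ?_⟩
    intro v hv
    beta_reduce
    rw [hfc v hv]
    have h1 : (((κ₀ v : ℤ) : ℝ) - ((1 - 0) * (κ₀ v : ℝ) + 0 * (κ₁ v : ℝ))) = 0 := by
      push_cast
      ring
    rw [h1, abs_zero]
    exact Nat.cast_nonneg _
  have hQ := (hGDX A J κ₀ κ₁ Cc Bb X hG hX hXn hB hNr).1
  -- the group of degrees
  let S : AddSubgroup (ℕ → ℤ) :=
    { carrier := {d | Pd A.l (Gd A.l J κ₀ κ₁ Cc Bb) (FX A.l J X) (FX A.l J X) d ∅}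
      zero_mem' := (hPRF A.l (Gd A.l J κ₀ κ₁ Cc Bb)).1 _ hQ
      add_mem' := by
        intro d d' h h'
        have h1 := hPTR A.l (Gd A.l J κ₀ κ₁ Cc Bb) _ _ _ d d' ∅ ∅ h h'
        rw [Set.union_empty] at h1
        exact h1
      neg_mem' := by
        intro d h
        exact hPSY A.l (Gd A.l J κ₀ κ₁ Cc Bb) _ _ d ∅ h }
  have hfl : ∀ x' j, x' < A.n → j < A.k → dW A.n (fun v => if v = x' then 1 else 0) (A.c j) ∈ S := by
    intro x' j hx' hj
    refine hFLP A J κ₀ κ₁ Cc Bb X x' j hG hX hx' hj hB hNr ?_ ?_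
    · refine ⟨0, ⟨le_refl _, zero_le_one⟩, ?_⟩
      intro v hv
      beta_reduce
      rw [hfc v hv]
      have h1 : ((((κ₀ v : ℤ) + A.c j v : ℤ) : ℝ) - ((1 - 0) * (κ₀ v : ℝ) + 0 * (κ₁ v : ℝ))) = ((A.c j v : ℤ) : ℝ) := by
        push_cast
        ring
      rw [h1]
      have h2 : (A.c j v).natAbs ≤ Cc := (KIL_cs A j v hj hv).trans hC
      have h3 : |((A.c j v : ℤ) : ℝ)| = ((A.c j v).natAbs : ℝ) := by
        rw [← Int.cast_abs, Int.abs_eq_natAbs, Int.cast_natCast]
      rw [h3]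
      exact_mod_cast h2
    · intro v hv
      have h1 := KIL_cs A j v hj hv
      have h2 := hcnt v hv
      omega
  have hsum : (∑ x' ∈ range A.n, ∑ j ∈ range A.k, N x' j • dW A.n (fun v => if v = x' then 1 else 0) (A.c j)) ∈ S := by
    refine S.sum_mem fun x' hx' => S.sum_mem fun j hj => ?_
    exact S.zsmul_mem (hfl x' j (Finset.mem_range.1 hx') (Finset.mem_range.1 hj)) _
  have h1 : (∑ x' ∈ range A.n, ∑ j ∈ range A.k, N x' j • dW A.n (fun v => if v = x' then 1 else 0) (A.c j)) = dW A.n x y := by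
    funext e
    exact KIL_dW A.n A.k x y N A.c hN e
  rw [h1] at hsum
  exact hsum

end Pool.Agent.BND.EX
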