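import Pool.Agent.helper70.BND.SpecH

/-! Row bh:VWC (MP_376aaf_an): counts of the words of the vertices. -/

set_option autoImplicit false

open scoped Topology
open Finset

namespace Pool.Agent.BND.EX

theorem VWC_fc (l : Lv) (J : ℕ) (X : List ℕ) (v : ℕ) : fc l J X v = X.count v + (0 :: 0 :: D0 l J).count v := by
  unfold fc
  simp only [List.count_cons, List.count_append, List.count_nil]
  omega

theorem VWC_cv (hCVF : CVF_stmt) (l : Lv) (hl : IsLv l) (J : ℕ) (X : List ℕ) (hX : ∀ x ∈ X, x < l.n) (v : ℕ) :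
    cv l (FX l J X) v = fc l J X v := by
  obtain ⟨c1, c2, c3, c4, c5, c6, c7⟩ := hCVF l hl
  have e0 : FX l J X = [((0 : ℕ), (0 : ℝ))] ++ (Dl l.N J ++ vw X ++ [(0, 0)]) := rfl
  have e1 : [((0 : ℕ), (0 : ℝ))] = vw [0] := rfl
  have h0 : ∀ x ∈ [0], x < l.n := by
    intro x hx
    rw [List.mem_singleton.1 hx]
    exact hl.n0
  rw [e0, c1, c1, c1, e1, c4 [0] v h0, c7, c4 X v hX, VWC_fc]
  simp only [List.count_cons, List.count_nil]
  omega

theorem VWC_nvh (hCVF : CVF_stmt) (l : Lv) (hl : IsLv l) (J : ℕ) (X : List ℕ) (hX : ∀ x ∈ X, x < l.n) :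
    nvh l (FX l J X) ≤ hw l.h (Dl l.N J) := by
  obtain ⟨c1, c2, c3, c4, c5, c6, c7⟩ := hCVF l hl
  have e0 : FX l J X = vw [0] ++ (Dl l.N J ++ vw X ++ vw [0]) := rfl
  have h0 : ∀ x ∈ [0], x < l.n := by
    intro x hx
    rw [List.mem_singleton.1 hx]
    exact hl.n0
  rw [e0, c2, c2, c2, c5 [0] h0, c5 X hX]
  simpa using c3 (Dl l.N J)

theorem VWC (hMKL : MKL_stmt) (hWDC : WDC_stmt) (hDLF : DLF_stmt) (hCVF : CVF_stmt) (hSWE : SWE_stmt) : VWC_stmt := by
  intro A J hG
  obtain ⟨hl, hh, -⟩ := hMKL A hG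
  obtain ⟨d1, -⟩ := hDLF A.l.N J
  have hn0 : 0 < A.n := hG.n0
  have hD0 : ∀ x ∈ D0 A.l J, x < A.n := by
    intro x hx
    obtain ⟨a, ha, hxa⟩ := List.mem_flatMap.1 hx
    exact hl.mem a.1 (d1 a ha).1 false x hxa
  refine ⟨hD0, ?_⟩
  intro M
  have hco : ∀ (x : ℕ), ∀ v ∈ co A.l J (M x), v < A.n := by
    intro x v hv
    exact (hWDC A.n _).2.1 v hv
  have hct : ∀ u, ∀ v ∈ ct A.l J M u, v < A.n := by
    intro u v hv
    cases u with
    | nil => exact absurd hv (List.not_mem_nil)
    | cons x u =>
      rw [ct, List.mem_append] at hv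
      rcases hv with hv | hv
      · exact hco _ _ hv
      · obtain ⟨y, hy, hvy⟩ := List.mem_flatMap.1 hv
        simp only [List.mem_cons, List.mem_append] at hvy
        rcases hvy with h | h | h | h
        · rw [h]; exact hn0
        · rw [h]; exact hn0
        · exact hD0 _ h
        · exact hco _ _ h
  have hcc : ∀ x, (∀ v, v < A.n → (D0 A.l J).length + 3 ≤ M x v) → ∀ v, v < A.n →
      (co A.l J (M x)).count v + (0 :: 0 :: D0 A.l J).count v = M x v := by
    intro x hx v hv
    have h1 : (co A.l J (M x)).count v = M x v - (0 :: 0 :: D0 A.l J).count v := by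
      show (wd A.n fun v => M x v - (0 :: 0 :: D0 A.l J).count v).count v = _
      rw [(hWDC A.n _).1 v, if_pos hv]
    have h2 : (0 :: 0 :: D0 A.l J).count v ≤ (D0 A.l J).length + 2 := by
      have := List.count_le_length (a := v) (l := 0 :: 0 :: D0 A.l J)
      simpa using this
    have h3 := hx v hv
    omega
  have hne : ∀ x, (∀ v, v < A.n → (D0 A.l J).length + 3 ≤ M x v) → co A.l J (M x) ≠ [] := by
    intro x hx h
    have h1 := hcc x hx 0 hn0
    rw [h] at h1
    have h2 : (0 :: 0 :: D0 A.l J).count 0 ≤ (D0 A.l J).length + 2 := by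
      have := List.count_le_length (a := 0) (l := 0 :: 0 :: D0 A.l J)
      simpa using this
    have h3 := hx 0 hn0
    rw [List.count_nil] at h1
    omega
  refine ⟨hco, hct, ?_, ?_⟩
  · intro x hx
    have hfc : ∀ v, v < A.n → fc A.l J (co A.l J (M x)) v = M x v := by
      intro v hv
      rw [VWC_fc]
      exact hcc x hx v hv
    have hcv : ∀ v, v < A.n → cv A.l (wv A.l J (M x)) v = M x v := by
      intro v hv
      rw [wv, VWC_cv hCVF A.l hl J _ (hco x), hfc v hv]
    refine ⟨hfc, hcc x hx, hcv, ?_, hne x hx, ?_⟩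
    · exact VWC_nvh hCVF A.l hl J _ (hco x)
    · have h0U : (0 : ℝ) ∈ U := ⟨le_refl _, zero_le_one⟩
      have hlet : ∀ a ∈ wv A.l J (M x), a.1 < A.l.N ∧ a.2 ∈ U := by
        intro a ha
        simp only [wv, FX, List.mem_cons, List.mem_append, List.not_mem_nil, or_false] at ha
        rcases ha with h | (h | h) | h
        · rw [h]
          exact ⟨hn0.trans_le hl.nN, h0U⟩
        · exact ⟨(d1 a h).1, (d1 a h).2.1⟩
        · obtain ⟨v, hv, rfl⟩ := List.mem_map.1 h
          exact ⟨(hco x v hv).trans_le hl.nN, h0U⟩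
        · rw [h]
          exact ⟨hn0.trans_le hl.nN, h0U⟩
      rw [(hSWE A.l hl _ hlet).2.1]
      refine Finset.sum_congr rfl fun v hv => ?_
      have hv' : v < A.n := Finset.mem_range.1 hv
      rw [hcv v hv', hh v hv']
  · intro u hu hM
    cases u with
    | nil => exact absurd rfl hu
    | cons x u =>
      have hx := hM x (List.mem_cons_self)
      refine ⟨?_, ?_⟩
      · intro v hv
        rw [VWC_fc, ct, List.count_append, kp, List.map_cons, List.sum_cons]
        have h1 := hcc x hx v hv
        have h2 : ∀ u' : List ℕ, (∀ y ∈ u', y ∈ x :: u) → (u'.flatMap fun x => 0 :: 0 :: (D0 A.l J ++ co A.l J (M x))).count v =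
            (u'.map fun x => M x v).sum := by
          intro u'
          induction u' with
          | nil =>
            intro _
            rfl
          | cons y u' ih =>
            intro h
            rw [List.flatMap_cons, List.count_append, ih fun z hz => h z (List.mem_cons_of_mem _ hz), List.map_cons, List.sum_cons]
            have h3 := hcc y (hM y (h y List.mem_cons_self)) v hv
            simp only [List.count_cons, List.count_append] at h3 ⊢
            omega
        rw [h2 u fun y hy => List.mem_cons_of_mem _ hy]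
        omega
      · intro h
        rw [ct, List.append_eq_nil_iff] at h
        exact hne x hx h.1

end Pool.Agent.BND.EX
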